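import Pool.Agent.H2.PencilProof

set_option autoImplicit false

namespace Pool.Agent.Results.MP_378045_ag.MixedDetPencil

open MvPolynomial Pool.Agent.H2.Pencil
open scoped ComplexOrder

/-- A real stable quadratic form in seven variables, with nonnegative coefficients, that is not a
mixed determinant of positive pencils without constant term. -/
theorem result : ∃ f : MvPolynomial (Fin 7) ℝ, IsRealStable f ∧ f.IsHomogeneous 2 ∧
    (∀ e, 0 ≤ f.coeff e) ∧
    ∀ (m : ℕ) (A : Fin m → Fin 7 → Matrix (Fin 2) (Fin 2) ℂ), (∀ j k, (A j k).PosSemidef) →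
      f.map (algebraMap ℝ ℂ) ≠ eta (fun j => pencil (A j)) :=
  ⟨pol, pol_stable, pol_hom, pol_coeff_nonneg, pol_ne_eta⟩

end Pool.Agent.Results.MP_378045_ag.MixedDetPencil
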